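import Pool.Agent.Lib.MP_33d9ce_co.Cst.D.Main
import Pool.Agent.Lib.MP_33d9ce_co.Cst.G.Main
import Pool.Agent.Lib.MP_33d9ce_co.Cst.A.Main
import Pool.Agent.Lib.MP_33d9ce_co.Cst.H
import Pool.Agent.Lib.MP_33d9ce_co.Cst.P_law
import Pool.Agent.Lib.MP_33d9ce_co.Cst.P_lin
import Pool.Agent.Lib.MP_33d9ce_co.Cst.P_pos
import Pool.Agent.Lib.MP_33d9ce_co.Cst.P_im
import Pool.Agent.Lib.MP_33d9ce_co.Cst.P_lawsum
import Pool.Agent.Lib.MP_33d9ce_co.Cst.P_ind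
import Pool.Agent.Lib.MP_33d9ce_co.Cst.P_L2
import Pool.Agent.Lib.MP_33d9ce_co.Cst.P_block
import Pool.Agent.Lib.MP_33d9ce_co.Cst.P_bayes
import Pool.Agent.Lib.MP_33d9ce_co.Cst.P_big
import Pool.Agent.Lib.MP_33d9ce_co.Cst.P_sq
import Pool.Agent.Lib.MP_33d9ce_co.Cst.P_trunc
import Pool.Agent.Lib.MP_33d9ce_co.Cst.P_lip
import Pool.Agent.Lib.MP_33d9ce_co.Cst.P_own
import Pool.Agent.Lib.MP_33d9ce_co.Cst.P_fam
import Pool.Agent.Lib.MP_33d9ce_co.Cst.P_lz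
import Pool.Agent.Lib.MP_33d9ce_co.Cst.P_lgeo
import Pool.Agent.Lib.MP_33d9ce_co.Cst.P_tbt
import Pool.Agent.Lib.MP_33d9ce_co.Cst.P_marg
import Pool.Agent.Lib.MP_33d9ce_co.Cst.P_ptb
import Pool.Agent.Lib.MP_33d9ce_co.Cst.P_plev
import Pool.Agent.Lib.MP_33d9ce_co.Cst.P_pgood
import Pool.Agent.Lib.MP_33d9ce_co.Cst.P_nb1
import Pool.Agent.Lib.MP_33d9ce_co.Cst.P_ups
import Pool.Agent.Lib.MP_33d9ce_co.Cst.P_size
import Pool.Agent.Lib.MP_33d9ce_co.Cst.P_alp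
import Pool.Agent.Lib.MP_33d9ce_co.Cst.P_col
import Pool.Agent.Lib.MP_33d9ce_co.Cst.P_hatR
import Pool.Agent.Lib.MP_33d9ce_co.Cst.P_hat0
import Pool.Agent.Lib.MP_33d9ce_co.Cst.P_sup
import Pool.Agent.Lib.MP_33d9ce_co.Cst.P_loc
import Pool.Agent.Lib.MP_33d9ce_co.Cst.P_fac
import Pool.Agent.Lib.MP_33d9ce_co.Cst.P_near
import Pool.Agent.Lib.MP_33d9ce_co.Cst.P_inj
import Pool.Agent.Lib.MP_33d9ce_co.Cst.P_pr1
import Pool.Agent.Lib.MP_33d9ce_co.Cst.P_pr2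
import Pool.Agent.Lib.MP_33d9ce_co.Cst.P_pr3
import Pool.Agent.Lib.MP_33d9ce_co.Cst.P_pr4
import Pool.Agent.Lib.MP_33d9ce_co.Cst.P_fr1
import Pool.Agent.Lib.MP_33d9ce_co.Cst.P_load
import Pool.Agent.Lib.MP_33d9ce_co.Cst.P_bigE
import Pool.Agent.Lib.MP_33d9ce_co.Cst.P_p01
import Pool.Agent.Lib.MP_33d9ce_co.Cst.P_var0
import Pool.Agent.Lib.MP_33d9ce_co.Cst.P_cnt
import Pool.Agent.Lib.MP_33d9ce_co.Cst.P_few
import Pool.Agent.Lib.MP_33d9ce_co.Cst.P_exp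
import Pool.Agent.Lib.MP_33d9ce_co.Cst.P_arr
import Pool.Agent.Lib.MP_33d9ce_co.Cst.P_fth
import Pool.Agent.Lib.MP_33d9ce_co.Cst.P_eok
import Pool.Agent.Lib.MP_33d9ce_co.Cst.P_inv
import Pool.Agent.Lib.MP_33d9ce_co.Cst.P_many
import Pool.Agent.Lib.MP_33d9ce_co.Cst.P_nL
import Pool.Agent.Lib.MP_33d9ce_co.Cst.P_nal
import Pool.Agent.Lib.MP_33d9ce_co.Cst.P_nsum
import Pool.Agent.Lib.MP_33d9ce_co.Cst.P_narr
import Pool.Agent.Lib.MP_33d9ce_co.Cst.P_nx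
import Pool.Agent.Lib.MP_33d9ce_co.Cst.P_nden
import Pool.Agent.Lib.MP_33d9ce_co.Cst.P_nnear
import Pool.Agent.Lib.MP_33d9ce_co.Cst.P_nblk
import Pool.Agent.Lib.MP_33d9ce_co.Cst.P_nlast
import Pool.Agent.Lib.MP_33d9ce_co.Cst.P_num
import Pool.Agent.Lib.MP_33d9ce_co.Cst.P_thr
import Pool.Agent.Lib.MP_33d9ce_co.Cst.P_varR
import Pool.Agent.Lib.MP_33d9ce_co.Cst.P_p02
import Pool.Agent.Lib.MP_33d9ce_co.Cst.P_blkE
import Pool.Agent.Lib.MP_33d9ce_co.Cst.P_pick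
import Pool.Agent.Lib.MP_33d9ce_co.Cst.T.Main

/-!
# Spanning hypercubes, constant density: all pieces together
-/

set_option autoImplicit false

noncomputable section

namespace Pool.Agent.Lib.MP_33d9ce_co.Cst

theorem f_fam : S_fam := p_fam p_lip
theorem f_ptb : S_ptb := p_ptb p_tbt p_marg
theorem f_plev : S_plev := p_plev p_lgeo f_ptb
theorem f_pgood : S_pgood := p_pgood f_plev f_ptb p_own
theorem f_alp : S_alp := p_alp p_size p_own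
theorem f_col : S_col := p_col f_alp
theorem f_hatR : S_hatR := p_hatR p_nb1 p_size f_alp f_fam
theorem f_hat0 : S_hat0 := p_hat0 p_nb1 f_alp f_fam
theorem f_sup : S_sup := p_sup p_nb1 f_alp f_fam
theorem f_loc : S_loc := p_loc p_nb1 p_lz
theorem f_fac : S_fac := p_fac p_ind
theorem f_L2 : S_L2 := p_L2 p_lin
theorem f_big : S_big := p_big p_bayes
theorem f_sq : S_sq := p_sq p_bayes
theorem f_pr1 : S_pr1 := p_pr1 p_ups p_bayes f_sup f_alp p_lawsum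
theorem f_pr2 : S_pr2 := p_pr2 p_ups p_bayes f_plev f_fam f_alp p_lawsum
theorem f_pr3 : S_pr3 := p_pr3 p_ups f_big f_hatR f_alp p_lawsum
theorem f_pr4 : S_pr4 := p_pr4 f_loc
theorem f_fr1 : S_fr1 := p_fr1 f_pr1 p_trunc
theorem f_load : S_load := p_load f_fr1 f_pr2 p_im p_inj p_lin
theorem f_bigE : S_bigE := p_bigE f_pr3 p_im p_inj p_lin
theorem f_p01 : S_p01 := p_p01 p_ups p_bayes f_sup f_alp p_lawsum
theorem f_few : S_few := p_few f_plev f_fam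
theorem f_arr : S_arr := p_arr main_A
theorem f_num : S_num := p_num p_nL p_nal p_nsum p_narr p_nx p_nden p_nnear p_nblk p_nlast
theorem f_varR : S_varR := p_varR f_L2 f_fr1 p_im p_inj f_fac f_loc f_pr4 p_near p_lin
theorem f_p02 : S_p02 := p_p02 p_ups p_bayes f_sq f_hat0 p_im p_inj p_lin f_alp p_lawsum
theorem f_var0 : S_var0 := p_var0 f_p02 f_p01 f_L2 p_im p_inj f_fac f_loc f_pr4 p_near p_lin
theorem f_blkE : S_blkE := p_blkE p_block f_sup f_alp p_inj p_lin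
theorem f_pick : S_pick := p_pick p_law p_lin p_pos p_im p_lawsum p_inj f_alp f_col f_pgood f_load f_varR f_bigE
  f_p02 f_var0 f_blkE f_few

theorem f_main : S_main :=
  p_main f_fr1 f_p01 p_exp p_cnt p_inv p_many p_H p_own f_fam f_pick main_G main_T f_arr p_fth p_eok p_near

/-- For all large `n` every graph on `2 ^ n` vertices with minimum degree greater than `(1 - 10 ^ (-24)) 2 ^ n` contains `Q_n`. -/
theorem f_thr : S_thr := p_thr f_main f_num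

end Pool.Agent.Lib.MP_33d9ce_co.Cst
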