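import Pool.Agent.Lib.MP_33d9ce_co.Cst.StmD
import Pool.Agent.Lib.MP_33d9ce_co.Slack.CubeA
import Pool.Agent.Lib.MP_33d9ce_co.Slack.CubeB

/-!
# Spanning hypercubes, constant density: the assembly
-/

set_option autoImplicit false

noncomputable section

open Classical Finset

namespace Pool.Agent.Lib.MP_33d9ce_co.Cst

open Slack (Cell Ev Od Dir nbr shift Lab cand card_Cell card_Ev card_Od card_Dir contains)

theorem main_filt {α : Type} [Fintype α] (p : α → Prop) (d1 d2 : DecidablePred p) :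
    (@Finset.filter α p d1 univ).card = (@Finset.filter α p d2 univ).card := by
  cases Subsingleton.elim d1 d2
  rfl

theorem main_base : (0 : ℝ) < 1 - 8 * (1 / 10 ^ 19) := by norm_num

theorem main_alv_pos (l : ℕ) : 0 < alv l := by
  unfold alv
  have := main_base
  positivity

theorem main_omv_pos (l : ℕ) : 0 < omv l := by
  unfold omv
  have := main_base
  positivity

theorem main_epv_nonneg (l : ℕ) : 0 ≤ epv l := by
  unfold epv
  positivity

/-- one term of the loads -/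
theorem main_e0 (b M om gs W O K : ℝ) (N N1 : ℕ) (hN : N1 = N + 1) (hM : 0 < M) (hb : b = 15 / 16 * M)
    (hom : 0 < om) (hgs : 0 ≤ gs) (hW : om * b ^ N1 ≤ W) (hKO : K * O = M) (hK : 0 ≤ K) (hO : 0 ≤ O) :
    2 * b ^ N * W⁻¹ * (gs * K) * O ≤ 32 / 15 * (gs * om⁻¹) := by
  subst hN
  have hb0 : 0 < b := by rw [hb]; positivity
  have h4 : W⁻¹ ≤ (om * b ^ (N + 1))⁻¹ := inv_anti₀ (by positivity) hW
  calc 2 * b ^ N * W⁻¹ * (gs * K) * O = (2 * b ^ N * (gs * (K * O))) * W⁻¹ := by ring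
    _ ≤ (2 * b ^ N * (gs * (K * O))) * (om * b ^ (N + 1))⁻¹ :=
        mul_le_mul_of_nonneg_left h4 (by positivity)
    _ = 32 / 15 * (gs * om⁻¹) := by
        rw [hKO, pow_succ, mul_inv, mul_inv]
        have h7 : b ^ N ≠ 0 := by positivity
        generalize b ^ N = P at h7
        rw [hb]
        field_simp
        ring

/-- comparison of roots -/
theorem main_root (th b z0 om W c : ℝ) (N : ℕ) (hN : N ≠ 0) (hb : 0 ≤ b) (hz : 0 ≤ z0) (hc : 0 ≤ c)
    (h1 : th ^ N ≤ z0 * om) (h2 : om * b ^ N ≤ W) (h3 : z0 * W ≤ c ^ N) : th * b ≤ c := by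
  have h5 : (th * b) ^ N ≤ c ^ N := by
    calc (th * b) ^ N = th ^ N * b ^ N := mul_pow _ _ _
      _ ≤ z0 * om * b ^ N := mul_le_mul_of_nonneg_right h1 (by positivity)
      _ = z0 * (om * b ^ N) := by ring
      _ ≤ z0 * W := mul_le_mul_of_nonneg_left h2 hz
      _ ≤ _ := h3
  exact le_of_pow_le_pow_left₀ hN hc h5

theorem main_sq (M Λ : ℝ) (hM : 0 < M) (hΛ : 0 < Λ) :
    (17 / 16 * M) ^ 2 * (8 * (M * (Λ * ((15 / 16 * M) ^ 2 * (17 / 16 * M) ^ 2)⁻¹))) < (Λ⁻¹ / 10 * M)⁻¹ := by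
  have h2 : (17 / 16 * M) ^ 2 * (8 * (M * (Λ * ((15 / 16 * M) ^ 2 * (17 / 16 * M) ^ 2)⁻¹))) =
      8 * (256 / 225) * (Λ * M⁻¹) := by
    field_simp
    norm_num
  have h3 : (Λ⁻¹ / 10 * M)⁻¹ = 10 * (Λ * M⁻¹) := by
    rw [mul_inv, div_eq_mul_inv, mul_inv, inv_inv, inv_inv]
    ring
  rw [h2, h3]
  exact mul_lt_mul_of_pos_right (by norm_num) (by positivity)

theorem main_var (Δ M Λ w er : ℝ) (hM : 0 < M) (hw : 0 ≤ w) (h : 8 * (Δ * Λ) ≤ er ^ 2 * M) :
    8 * (Δ * (M * (Λ * w))) ≤ (er * M) ^ 2 * w := by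
  have h2 : 8 * (Δ * (M * (Λ * w))) = (8 * (Δ * Λ)) * (M * w) := by ring
  have h3 : (er * M) ^ 2 * w = (er ^ 2 * M) * (M * w) := by ring
  rw [h2, h3]
  exact mul_le_mul_of_nonneg_right h (by positivity)

/-- **Second part of the assembly**: from the data to the cube. -/
theorem main_B (hfr1 : S_fr1) (hp01 : S_p01) (hexp : S_exp) (hcnt : S_cnt) (hinv : S_inv)
    (hmany : S_many) (hH : S_H) (hown : S_own) (hfam : S_fam) (hpick : S_pick)
    {κ m r n h L : ℕ} {x z0 Dn H th Δ er : ℝ} (hp : Num κ m r n h L x z0 Dn H th Δ er)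
    {V S : Type} [Fintype V] [Fintype S] (G : SimpleGraph V) (cardV : Fintype.card V = 2 ^ n)
    (A : Finset V) (cA : (A.card : ℝ) = 17 / 16 * 2 ^ (n - 1))
    (cell : Cell κ → Cell κ) (W : ℕ → Finset (Fin 1210 → {v // v ∉ A})) (E : ℕ → ℕ → Finset {v // v ∈ A})
    (f : Ev κ m r → S → {v // v ∈ A}) (hf : Function.Injective fun p : Ev κ m r × S => f p.1 p.2)
    (hok : (env G.Adj A cell L W E alv f).Ok (1 / 10 ^ 12) x 1210)
    (hnon : ∀ v i, (({s | ¬ G.Adj (f i s).1 v} : Finset S).card : ℝ) ≤ 1 / 10 ^ 12 * 2 ^ κ)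
    (htrn : Trn (env G.Adj A cell L W E alv f) z0 H Dn 600)
    (hlvl : Lvl (env G.Adj A cell L W E alv f) omv epv gv ((337 / 192) ^ κ))
    (hnear : ∀ y, (({y' | near (env G.Adj A cell L W E alv f) y y'} :
      Finset (Cell κ × Od κ m r)).card : ℝ) ≤ Δ) : ContainsCube n G := by
  obtain ⟨hn, hκ, hL2, hLκ, htop, hbelow, hhle, hx0, hhx, harr, hal, hz0, hH0, hdens, htrunc, hth0, hroot, hnr,
    hgood, hlarge, hblocks, hload, hexpand, hfirst, her0, herr, herr1, herr2⟩ := hp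
  -- numbers
  have hpos3 : 0 < 3 * κ + 4 * m + r := by omega
  have e1 : 3 * κ + 4 * m + r = (n - 1 - κ) + 1 := by omega
  have cP : Fintype.card (Cell κ) = 2 ^ κ := card_Cell κ
  have cI : Fintype.card (Ev κ m r) = 2 ^ (n - 1 - κ) := by
    have h1 := card_Ev κ m r hpos3
    rw [e1, pow_succ] at h1
    omega
  have cO : Fintype.card (Od κ m r) = 2 ^ (n - 1 - κ) := by
    have h1 := card_Od κ m r hpos3
    rw [e1, pow_succ] at h1
    omega
  have cD : Fintype.card (Dir κ m r) = n := by rw [card_Dir, hn]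
  have hkn : κ + (n - 1 - κ) = n - 1 := by omega
  have hM2 : (2 : ℝ) ^ κ * 2 ^ (n - 1 - κ) = 2 ^ (n - 1) := by rw [← pow_add, hkn]
  have hn1 : (2 : ℝ) ^ n = 2 * 2 ^ (n - 1) := by
    rw [← pow_succ']; congr 1; omega
  set M : ℝ := 2 ^ (n - 1) with hMdef
  have hMpos : (0 : ℝ) < M := by positivity
  have hkpos : (0 : ℝ) < 2 ^ κ := by positivity
  have cV : (Fintype.card V : ℝ) = 2 * M := by
    rw [cardV]
    push_cast
    exact hn1
  have cY : (Fintype.card (Cell κ × Od κ m r) : ℝ) = M := by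
    rw [Fintype.card_prod, cP, cO]; push_cast; exact hM2
  have hAlt : A.card < Fintype.card V := by
    have : (A.card : ℝ) < Fintype.card V := by
      rw [cA, cV]; nlinarith
    exact_mod_cast this
  have cB : (Fintype.card {v // v ∉ A} : ℝ) = 15 / 16 * M := by
    have h1 : Fintype.card {v // v ∉ A} = Fintype.card V - A.card := by
      rw [Fintype.card_subtype_compl]
      simp
    rw [h1, Nat.cast_sub hAlt.le, cV, cA]
    ring
  have cA' : (Fintype.card {v // v ∈ A} : ℝ) = 17 / 16 * M := by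
    rw [Fintype.card_coe, cA]
  have cW : (Fintype.card (Lab A) : ℝ) = (15 / 16 * M) ^ 2 * (17 / 16 * M) ^ 2 := by
    simp only [Lab, Fintype.card_prod]
    push_cast
    rw [cB, cA']
    ring
  have hWpos : (0 : ℝ) < Fintype.card (Lab A) := by
    rw [cW]
    positivity
  have hO : Nonempty (Od κ m r) := by
    rw [← Fintype.card_pos_iff, cO]
    positivity
  have hΔ0 : 0 < Δ := by
    refine lt_of_lt_of_le ?_ hnr
    positivity
  set e := env G.Adj A cell L W E alv f with he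
  have heL : e.L = L := rfl
  -- the choice of the labels and of the placement
  obtain ⟨ξ, σ, hgξ, hinj, hlaw, hnob, hblk, ⟨Ev', hEv, hV2⟩, ⟨m0, hm1, hm2, hV0⟩, hsq⟩ :=
    hpick κ m r 1210 S {v // v ∈ A} (Lab A) {v // v ∉ A} V e (1 / 10 ^ 12) x z0 H Dn 600
      (fun a b => G.Adj a.1 b.1) (fun a v => G.Adj a.1 v) omv epv gv ((337 / 192) ^ κ) Δ hok htrn
      (fun a w => Iff.rfl) hlvl hnear hnon hΔ0 hO hgood (by rw [cY, cD]; exact hlarge)
      (by rw [cY, cD, cV, ← hn1]; exact hblocks)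
  have hfirst' : gv 1 + sml e.L epv 1 ≤ 1 / 1000 := hfirst
  rw [cY, cB] at hV2
  rw [cY] at hm1 hm2
  rw [cY, cD] at hV0 hsq
  set Λ : ℝ := ((1 - 4 * (1 / 10 ^ 12)) ^ n)⁻¹ with hΛ
  have hΛ0 : 0 < Λ := by
    rw [hΛ]
    exact inv_pos.2 (pow_pos (by norm_num) _)
  -- the matching
  set C : Cell κ × Od κ m r → Finset V := cand G.Adj (fun i s => (f i s).1) σ with hC
  set Cb : Cell κ × Od κ m r → Finset {v // v ∉ A} := fun y => {v | ∀ t, G.Adj (f (nbr y t).2
    ((e.mod m r).im σ y t)).1 v.1} with hCb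
  have hmemC : ∀ y v, v ∈ C y ↔ ∀ t, G.Adj (f (nbr y t).2 (σ (nbr y t).2 (nbr y t).1)).1 v := by
    intro y v
    simp only [hC, cand, Finset.mem_filter, Finset.mem_univ, true_and]
  have hmemCb : ∀ y v, v ∈ Cb y ↔ ∀ t, G.Adj (f (nbr y t).2 ((e.mod m r).im σ y t)).1 v.1 := by
    intro y v
    simp only [hCb, Finset.mem_filter, Finset.mem_univ, true_and]
  set Φ : Finset V := univ.image (fun p : Ev κ m r × Cell κ => (f p.1 (σ p.1 p.2)).1) with hΦ
  have hΦinj : Function.Injective (fun p : Ev κ m r × Cell κ => (f p.1 (σ p.1 p.2)).1) := by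
    rintro ⟨i, p⟩ ⟨i', p'⟩ hh
    have h1 := @hf (i, σ i p) (i', σ i' p') (Subtype.ext hh)
    simp only [Prod.mk.injEq] at h1
    obtain ⟨h2, h3⟩ := h1
    subst h2
    rw [hinj i h3]
  have cΦ : (Φ.card : ℝ) = M := by
    rw [hΦ, Finset.card_image_of_injective _ hΦinj, Finset.card_univ, Fintype.card_prod, cI, cP]
    push_cast
    rw [mul_comm]; exact hM2
  have hΦA : Φ ⊆ A := by
    intro v hv
    simp only [hΦ, Finset.mem_image, Finset.mem_univ, true_and] at hv
    obtain ⟨p, rfl⟩ := hv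
    exact (f p.1 (σ p.1 p.2)).2
  -- rows
  set row : Cell κ × Od κ m r → Lab A → ℝ := fun y w => pR0 e y ξ ((e.mod m r).im σ y) w with hrow
  have hrow0 : ∀ y w, 0 ≤ row y w := fun y w =>
    (hp01 κ m r S {v // v ∈ A} (Lab A) _ e _ x 1210 hok y ξ _).1 w
  have hrow1 : ∀ y, e.yf ξ.2 y.1 = 0 → ∑ w, row y w = 1 := fun y hy =>
    (hp01 κ m r S {v // v ∈ A} (Lab A) _ e _ x 1210 hok y ξ _).2.2.1 hy (hlaw y)
  have hrow2 : ∀ y, e.yf ξ.2 y.1 ≠ 0 → ∀ w, row y w = 0 := fun y hy =>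
    (hp01 κ m r S {v // v ∈ A} (Lab A) _ e _ x 1210 hok y ξ _).2.1 hy
  have hrow3 : ∀ y w, row y w ≠ 0 → (w.1.1 : V) ∈ C y ∧ (w.1.2 : V) ∈ C y ∧ (w.2.1 : V) ∈ C y ∧
      (w.2.2 : V) ∈ C y := by
    intro y w hw
    have h1 : ∀ t, okq G.Adj A (f (nbr y t).2 ((e.mod m r).im σ y t)) w :=
      (hp01 κ m r S {v // v ∈ A} (Lab A) _ e _ x 1210 hok y ξ _).2.2.2 w hw
    refine ⟨(hmemC _ _).2 fun t => (h1 t).1, (hmemC _ _).2 fun t => (h1 t).2.1,
      (hmemC _ _).2 fun t => (h1 t).2.2.1, (hmemC _ _).2 fun t => (h1 t).2.2.2⟩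
  have hW0 : Nonempty (Lab A) := hok.nonempty0
  -- many odd vertices of the family 0
  have hcnt0 : M / 2 ≤ (({y | e.yf ξ.2 y.1 = 0} : Finset (Cell κ × Od κ m r)).card : ℝ) := by
    have h1 := hmany (Lab A) (fun w => ∑ y, row y w) m0 (er * M) (by positivity)
      (le_trans hV0 (main_var Δ M Λ _ er hMpos (by positivity) herr))
    rw [Finset.sum_comm] at h1
    have h2 : ∑ y, ∑ w, row y w = (({y | e.yf ξ.2 y.1 = 0} : Finset (Cell κ × Od κ m r)).card : ℝ) := by
      rw [Finset.card_filter]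
      push_cast
      refine Finset.sum_congr rfl fun y _ => ?_
      by_cases hy : e.yf ξ.2 y.1 = 0
      · rw [hrow1 y hy, if_pos hy]
      · rw [if_neg hy]
        exact Finset.sum_eq_zero fun w _ => hrow2 y hy w
    rw [h2] at h1
    have h3 : (2 ^ m : ℝ)⁻¹ ≤ 1 := inv_le_one_of_one_le₀ (one_le_pow₀ (by norm_num))
    have h4 : er ≤ 1 / 2000 := by linarith
    have h5 : (1 - 1 / 1000) * M ≤ m0 := le_trans (mul_le_mul_of_nonneg_right (by linarith) hMpos.le) hm1
    nlinarith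
  obtain ⟨g, hg, hg2⟩ := hH V (Cell κ × Od κ m r) A Φ hΦA M hMpos cV cY cΦ
    (by rw [cA]; ring) C (fun y => e.yf ξ.2 y.1 ≠ 0) row hrow0
    (fun y hy => hrow1 y (not_not.1 hy)) (fun y hy => hrow2 y hy) hrow3
    ((2 ^ m)⁻¹ / 2) ((1 - 4 * (1 / 10 ^ 12)) ^ n / 10) er (m0 / M) (by positivity)
    (div_pos (pow_pos (by norm_num) _) (by norm_num)) her0 herr1 herr2
    (by
      rw [le_div_iff₀ hMpos]
      exact le_trans (mul_le_mul_of_nonneg_right (by linarith) hMpos.le) hm1)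
    (by rw [div_le_one hMpos]; exact hm2)
    (by
      intro v
      have h1 := hcnt κ m r (fun u => e.yf ξ.2 u = 0) (fun y => v ∈ C y) (by
        intro y hy
        obtain ⟨c, hc⟩ := hblk v y hy
        exact ⟨c, (hmemC _ _).2 hc⟩)
      have h2 : (({y | e.yf ξ.2 y.1 = 0} : Finset (Cell κ × Od κ m r)).card : ℝ) ≤
          2 ^ m * (({y | v ∈ C y} : Finset (Cell κ × Od κ m r)).card : ℝ) := by
        have h1' : ({y | e.yf ξ.2 y.1 = 0} : Finset (Cell κ × Od κ m r)).card ≤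
          2 ^ m * ({y | v ∈ C y} : Finset (Cell κ × Od κ m r)).card :=
            le_trans (le_of_eq (main_filt _ _ _)) (h1.trans (le_of_eq (congrArg _ (main_filt _ _ _))))
        exact_mod_cast h1'
      have h3 : (0 : ℝ) < 2 ^ m := by positivity
      have h4 := hcnt0.trans h2
      rw [div_mul_eq_mul_div, inv_mul_eq_div, div_div, div_le_iff₀ (by positivity)]
      linarith)
    (by
      -- the sum of the inverse squares
      have h1 : ∀ s : Finset (Cell κ × Od κ m r), (∀ y ∈ s, e.yf ξ.2 y.1 = 0) →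
          ∑ y ∈ s, (((C y).filter (· ∉ A)).card : ℝ)⁻¹ ^ 2 ≤ (A.card : ℝ) ^ 2 * ∑ y, ∑ w, row y w ^ 2 := by
        intro s hs
        rw [Finset.mul_sum]
        refine le_trans (Finset.sum_le_sum fun y hy => ?_)
          (Finset.sum_le_sum_of_subset_of_nonneg (Finset.subset_univ s) fun y _ _ => ?_)
        · exact hinv V A (C y) (row y) (hrow0 y) (hrow1 y (hs y hy)) (hrow3 y)
        · exact mul_nonneg (by positivity) (Finset.sum_nonneg fun w _ => by positivity)
      refine lt_of_le_of_lt (h1 _ fun y hy => by simpa using hy) ?_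
      refine lt_of_le_of_lt (mul_le_mul_of_nonneg_left hsq (by positivity)) ?_
      rw [cW, cA]
      have h3 : ((1 - 4 * (1 / 10 ^ 12)) ^ n : ℝ) = Λ⁻¹ := by rw [hΛ, inv_inv]
      rw [h3]
      exact main_sq M Λ hMpos hΛ0)
    (by
      have h0 : m0 / M * M = m0 := div_mul_cancel₀ _ hMpos.ne'
      rw [h0]
      exact le_trans hV0 (main_var Δ M Λ _ er hMpos (by positivity) herr))
    (by
      -- the expansion of the rare vertices
      intro Z hZ
      have hF := fun y => hfr1 κ m r 1210 S {v // v ∈ A} (Lab A) {v // v ∉ A} e (1 / 10 ^ 12) x z0 H Dn 600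
        (fun a b => G.Adj a.1 b.1) hok htrn (fun a w => Iff.rfl) y ξ ((e.mod m r).im σ y)
      have hj : ∀ y ∈ Z, 1 ≤ ∑ v, Fr e z0 H y v ξ ((e.mod m r).im σ y) ∧
          th * (Fintype.card {v // v ∉ A} : ℝ) ≤ ((Cb y).card : ℝ) := by
        intro y hy
        have hy0 := hZ y hy
        have hjL : e.yf ξ.2 y.1 ≤ L := by
          have h1 := (hfam κ _ _ e.ok e.E e.al e.cell e.L (e.vw ξ.2) y.1).2.2
          have h2 := (hown κ _ _ e.ok e.E e.al e.cell e.L (e.vw ξ.2) y.1).2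
          exact h1.trans h2
        have hcls : e.cls (e.yf ξ.2 y.1) y.1 ξ := ⟨rfl, fun v _ => hgξ.1 v⟩
        have h1j : 1 ≤ e.yf ξ.2 y.1 := Nat.one_le_iff_ne_zero.2 hy0
        have h1 := (hF y).2.2.2.2.2 _ h1j hjL hcls (hlaw y) (hnob y _ h1j hjL hcls)
        refine ⟨h1.1, ?_⟩
        set j := e.yf ξ.2 y.1 with hjd
        have h2 : omv j * (Fintype.card (Fin 1210 → {v // v ∉ A}) : ℝ) ≤ ((W j).card : ℝ) :=
          hlvl.out.2.1 j h1j hjL
        have h3 : (Fintype.card (Fin 1210 → {v // v ∉ A}) : ℝ) = (Fintype.card {v // v ∉ A} : ℝ) ^ 1210 := by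
          rw [Fintype.card_fun, Fintype.card_fin]
          push_cast
          rfl
        rw [h3] at h2
        exact main_root th _ z0 (omv j) _ _ 1210 (Nat.succ_ne_zero 1209) (Nat.cast_nonneg _) hz0.le
          (Nat.cast_nonneg _) (hroot j h1j hjL) h2 h1.2
      have hcard : ∀ dd : DecidableEq {v // v ∉ A}, ((Z.biUnion C).filter (· ∉ A)).card =
          (@Finset.biUnion _ _ dd Z Cb).card := by
        intro dd
        symm
        refine Finset.card_bij (fun v _ => v.1) ?_ ?_ ?_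
        · intro v hv
          rw [Finset.mem_biUnion] at hv
          obtain ⟨y, hy, hv⟩ := hv
          rw [Finset.mem_filter, Finset.mem_biUnion]
          exact ⟨⟨y, hy, (hmemC _ _).2 ((hmemCb _ _).1 hv)⟩, v.2⟩
        · intro v _ v' _ hvv
          exact Subtype.ext hvv
        · intro v hv
          rw [Finset.mem_filter, Finset.mem_biUnion] at hv
          obtain ⟨⟨y, hy, hv⟩, hvA⟩ := hv
          refine ⟨⟨v, hvA⟩, ?_, rfl⟩
          rw [Finset.mem_biUnion]
          exact ⟨y, hy, (hmemCb _ _).2 ((hmemC _ _).1 hv)⟩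
      have hE0 : ∑ j ∈ Icc 1 e.L, 2 * (Fintype.card {v // v ∉ A} : ℝ) ^ (1210 - 1) * ((e.W j).card : ℝ)⁻¹ *
          ((gv j + sml e.L epv j) * 2 ^ κ) * Fintype.card (Od κ m r) ≤ 1 / 2000 := by
        refine le_trans ?_ hload
        rw [Finset.mul_sum]
        refine Finset.sum_le_sum fun j hj => ?_
        rw [Finset.mem_Icc] at hj
        have h2 : omv j * (Fintype.card (Fin 1210 → {v // v ∉ A}) : ℝ) ≤ ((W j).card : ℝ) :=
          hlvl.out.2.1 j hj.1 hj.2
        have h3 : (Fintype.card (Fin 1210 → {v // v ∉ A}) : ℝ) = (Fintype.card {v // v ∉ A} : ℝ) ^ 1210 := by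
          rw [Fintype.card_fun, Fintype.card_fin]
          push_cast
          rfl
        rw [h3] at h2
        have hom := main_omv_pos j
        have hBpos : (0 : ℝ) < Fintype.card {v // v ∉ A} := by rw [cB]; positivity
        have hgs : 0 ≤ gv j + sml e.L epv j := by
          refine add_nonneg (Real.exp_pos _).le (Finset.sum_nonneg fun l _ => ?_)
          exact mul_nonneg (by positivity) (main_epv_nonneg l)
        have h5 : (Fintype.card (Od κ m r) : ℝ) = 2 ^ (n - 1 - κ) := by rw [cO]; push_cast; rfl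
        rw [h5]
        have h6 : (0 : ℝ) ≤ 2 ^ κ := by positivity
        have h7 : (0 : ℝ) ≤ 2 ^ (n - 1 - κ) := by positivity
        have h8 : 1210 = 1210 - 1 + 1 := by norm_num
        exact main_e0 _ M (omv j) _ _ _ _ _ 1210 h8 hMpos cB hom hgs h2 hM2 h6 h7
      have hres := hexp (Cell κ × Od κ m r) {v // v ∉ A} (fun y v => Fr e z0 H y v ξ ((e.mod m r).im σ y)) Cb Ev' Z
        (∑ j ∈ Icc 1 e.L, 2 * (Fintype.card {v // v ∉ A} : ℝ) ^ (1210 - 1) * ((e.W j).card : ℝ)⁻¹ *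
          ((gv j + sml e.L epv j) * 2 ^ κ) * Fintype.card (Od κ m r))
        (8 * (Δ * (M * (4 * H / (15 / 16 * M))))) (th * (Fintype.card {v // v ∉ A} : ℝ))
        (fun y v => (hF y).1 v) (fun y hy => (hj y hy).1)
        (fun y v hv => (hmemCb _ _).2 ((hF y).2.2.2.2.1 v hv))
        hEv hE0 hV2 (fun y hy => (hj y hy).2) (by
          rw [cB]
          refine le_trans (le_of_eq ?_) hexpand
          have : M * (4 * H / (15 / 16 * M)) = 64 / 15 * H := by
            field_simp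
            norm_num
          rw [this])
      exact hres.trans (le_of_eq (hcard _).symm))
  -- conclusion
  refine contains (k := κ) (m := m) (r := r) hn G (fun i s => (f i s).1) ?_ σ hinj g hg ?_ ?_
  · intro p p' hpp
    exact hf (Subtype.ext hpp)
  · intro y i p heq
    apply (hg2 y).2
    rw [heq, hΦ]
    simp only [Finset.mem_image, Finset.mem_univ, true_and]
    exact ⟨(i, p), rfl⟩
  · intro y t
    exact (hmemC _ _).1 (hg2 y).1 t

/-- **The assembly.** -/
theorem p_main (hfr1 : S_fr1) (hp01 : S_p01) (hexp : S_exp) (hcnt : S_cnt) (hinv : S_inv)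
    (hmany : S_many) (hH : S_H) (hown : S_own) (hfam : S_fam) (hpick : S_pick)
    (hG : S_G) (hT : S_T) (harray : S_arr) (hfth : S_fth) (heok : S_eok) (hnear : S_near) : S_main := by
  intro κ m r n h L x z0 Dn H th Δ er hp V _ G cardV hdeg
  have hp' := hp
  obtain ⟨hn, hκ, hL2, hLκ, htop, hbelow, hhle, hx0, hhx, harr, hal, hz0, hH0, hdens, htrunc, hth0, hroot, hnr,
    hgood, hlarge, hblocks, hload, hexpand, hfirst, her0, herr, herr1, herr2⟩ := hp
  -- numbers
  have hpos3 : 0 < 3 * κ + 4 * m + r := by omega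
  have e1 : 3 * κ + 4 * m + r = (n - 1 - κ) + 1 := by omega
  have cI : Fintype.card (Ev κ m r) = 2 ^ (n - 1 - κ) := by
    have h1 := card_Ev κ m r hpos3
    rw [e1, pow_succ] at h1
    omega
  have cO : Fintype.card (Od κ m r) = 2 ^ (n - 1 - κ) := by
    have h1 := card_Od κ m r hpos3
    rw [e1, pow_succ] at h1
    omega
  have cD : Fintype.card (Dir κ m r) = n := by rw [card_Dir, hn]
  have hkn : κ + (n - 1 - κ) = n - 1 := by omega
  have hM2 : (2 : ℝ) ^ κ * 2 ^ (n - 1 - κ) = 2 ^ (n - 1) := by rw [← pow_add, hkn]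
  have hn1 : (2 : ℝ) ^ n = 2 * 2 ^ (n - 1) := by
    rw [← pow_succ']; congr 1; omega
  have hk4 : 2 ^ κ = 16 * 2 ^ (κ - 4) := by
    have : κ = 4 + (κ - 4) := by omega
    conv_lhs => rw [this, pow_add]
    norm_num
  have cS : 16 * Fintype.card (Fin (17 * 2 ^ (κ - 4))) = 17 * 2 ^ κ := by
    rw [Fintype.card_fin, hk4]
    ring
  have cSr : (Fintype.card (Fin (17 * 2 ^ (κ - 4))) : ℝ) = 17 / 16 * 2 ^ κ := by
    have : (16 : ℝ) * (Fintype.card (Fin (17 * 2 ^ (κ - 4))) : ℝ) = 17 * 2 ^ κ := by exact_mod_cast cS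
    linarith
  have hI : Nonempty (Ev κ m r) := ⟨⟨0, by simp⟩⟩
  have hS : Nonempty (Fin (17 * 2 ^ (κ - 4))) := ⟨⟨0, by positivity⟩⟩
  have hMpos : (0 : ℝ) < 2 ^ (n - 1) := by positivity
  have cV : (Fintype.card V : ℝ) = 2 * 2 ^ (n - 1) := by
    rw [cardV]
    push_cast
    exact hn1
  -- the set `A`
  have hIS : ((Fintype.card (Ev κ m r) * Fintype.card (Fin (17 * 2 ^ (κ - 4))) : ℕ) : ℝ) =
      17 / 16 * 2 ^ (n - 1) := by
    push_cast
    rw [cSr, cI, ← hM2]
    push_cast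
    ring
  obtain ⟨A, -, hA⟩ := Finset.exists_subset_card_eq (s := (univ : Finset V))
    (n := Fintype.card (Ev κ m r) * Fintype.card (Fin (17 * 2 ^ (κ - 4)))) (by
      rw [Finset.card_univ]
      have : ((Fintype.card (Ev κ m r) * Fintype.card (Fin (17 * 2 ^ (κ - 4))) : ℕ) : ℝ) ≤ Fintype.card V := by
        rw [hIS, cV]
        linarith
      exact_mod_cast this)
  have cA : (A.card : ℝ) = 17 / 16 * 2 ^ (n - 1) := by rw [hA, hIS]
  have hAlt : A.card < Fintype.card V := by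
    have : (A.card : ℝ) < Fintype.card V := by
      rw [cA, cV]; linarith
    exact_mod_cast this
  have cB : (Fintype.card {v // v ∉ A} : ℝ) = 15 / 16 * 2 ^ (n - 1) := by
    have h1 : Fintype.card {v // v ∉ A} = Fintype.card V - A.card := by
      rw [Fintype.card_subtype_compl]
      simp
    rw [h1, Nat.cast_sub hAlt.le, cV, cA]
    ring
  have cA' : (Fintype.card {v // v ∈ A} : ℝ) = 17 / 16 * 2 ^ (n - 1) := by
    rw [Fintype.card_coe, cA]
  have hAne : Nonempty {v // v ∈ A} := by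
    rw [← Fintype.card_pos_iff]
    have : (0 : ℝ) < (Fintype.card {v // v ∈ A} : ℝ) := by
      rw [cA']
      exact mul_pos (by norm_num) hMpos
    exact_mod_cast this
  have hBne : Nonempty {v // v ∉ A} := by
    rw [← Fintype.card_pos_iff]
    have : (0 : ℝ) < (Fintype.card {v // v ∉ A} : ℝ) := by
      rw [cB]
      exact mul_pos (by norm_num) hMpos
    exact_mod_cast this
  have hLne : Nonempty (Lab A) := by
    obtain ⟨a⟩ := hAne
    obtain ⟨b⟩ := hBne
    exact ⟨((b, b), (a, a))⟩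
  -- the partition
  obtain ⟨cell, hcell, hgeom⟩ := hG κ L hκ hLκ
  -- the labels
  have hfair : Fair (1 / 10 ^ 19) (okb G.Adj A (aa := 1210)) := by
    refine hfth V G.Adj A 1210 h (1 / 10 ^ 19) (by norm_num) (by norm_num) hdeg (fun v => ?_) ?_ ?_
    · refine le_trans (le_of_eq ?_) (hdeg v)
      refine congrArg Finset.card ?_
      refine Finset.filter_congr fun a _ => ?_
      rw [G.adj_comm]
    · rw [cA']
      have : ((1210 : ℕ) : ℝ) = 1210 := by norm_num
      rw [this]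
      refine hhle.trans ?_
      have h1 : (15 / 16 * 2 ^ (n - 1) : ℝ) ≤ 17 / 16 * 2 ^ (n - 1) :=
        mul_le_mul_of_nonneg_right (by norm_num) hMpos.le
      exact mul_le_mul_of_nonneg_left h1 (by norm_num)
    · rw [cB]
      have : ((1210 : ℕ) : ℝ) = 1210 := by norm_num
      rw [this]
      exact hhle
  have hΩne : Nonempty (Fin 1210 → {v // v ∉ A}) := ⟨fun _ => hBne.some⟩
  obtain ⟨W, E, hout⟩ := hT {v // v ∈ A} (Fin 1210 → {v // v ∉ A}) (1 / 10 ^ 19) (okb G.Adj A) L hfair le_rfl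
  have hout' : TOut (okb G.Adj A) L kap alv omv epv W E := hout
  -- the array
  obtain ⟨f, hf, hf1, hf2⟩ := harray κ L 1210 V (Ev κ m r) (Fin (17 * 2 ^ (κ - 4))) G.Adj A E x hx0 hA (by
    rw [cSr, cI, cardV]
    push_cast
    exact harr)
  obtain ⟨hok, hnon⟩ := heok κ L n h V (Ev κ m r) (Fin (17 * 2 ^ (κ - 4))) G.Adj A cell W E f x hdeg cA cS hx0 hhx
    hL2 htop hbelow hal hout'.1 hLne hf1 hf2
  have cΩ : (Fintype.card (Fin 1210 → {v // v ∉ A}) : ℝ) = (Fintype.card {v // v ∉ A} : ℝ) ^ 1210 := by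
    rw [Fintype.card_fun, Fintype.card_fin]
    push_cast
    rfl
  have htrn : Trn (env G.Adj A cell L W E alv f) z0 H Dn 600 := by
    refine ⟨hBne, hz0, hH0, by norm_num, fun j h1 h2 => ?_, ?_⟩
    · have h3 : omv j * (Fintype.card (Fin 1210 → {v // v ∉ A}) : ℝ) ≤ ((W j).card : ℝ) := hout'.2.1 j h1 h2
      rw [cΩ] at h3
      have h4 := hdens j h1 h2
      have hom := main_omv_pos j
      have hDn : 0 ≤ Dn := by
        by_contra hneg
        push Not at hneg
        have := mul_neg_of_neg_of_pos hneg (mul_pos hz0 hom)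
        linarith
      have hb : (0 : ℝ) ≤ (Fintype.card {v // v ∉ A} : ℝ) ^ 1210 := pow_nonneg (Nat.cast_nonneg _) _
      calc (Fintype.card {v // v ∉ A} : ℝ) ^ 1210 = 1 * (Fintype.card {v // v ∉ A} : ℝ) ^ 1210 := (one_mul _).symm
        _ ≤ Dn * (z0 * omv j) * (Fintype.card {v // v ∉ A} : ℝ) ^ 1210 := mul_le_mul_of_nonneg_right h4 hb
        _ = Dn * (z0 * (omv j * (Fintype.card {v // v ∉ A} : ℝ) ^ 1210)) := by ring
        _ ≤ Dn * (z0 * (W j).card) :=
            mul_le_mul_of_nonneg_left (mul_le_mul_of_nonneg_left h3 hz0.le) hDn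
    · have : ((1210 : ℕ) : ℝ) = 1210 := by norm_num
      rw [this]
      exact htrunc
  have hlvl : Lvl (env G.Adj A cell L W E alv f) omv epv gv ((337 / 192) ^ κ) :=
    ⟨hout', main_epv_nonneg, hgeom, hcell⟩
  refine main_B hfr1 hp01 hexp hcnt hinv hmany hH hown hfam hpick hp' G cardV A cA cell W E f hf hok hnon htrn hlvl
    fun y => ?_
  have h1 := (hnear κ m r (Fin (17 * 2 ^ (κ - 4))) {v // v ∈ A} (Lab A) (Fin 1210 → {v // v ∉ A})
    (env G.Adj A cell L W E alv f) ((337 / 192) ^ κ) hcell).2 y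
  refine h1.trans (le_trans (le_of_eq ?_) hnr)
  rw [cO, cD]
  push_cast
  rfl

end Pool.Agent.Lib.MP_33d9ce_co.Cst
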